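import Pool.Agent.Lib_helper16.OCN.YcJ_All

/-!
# MP_aeb124_co: number game, attacks in a long window (block A3)
-/

set_option autoImplicit false

namespace Pool.Agent.OCN.YC

variable {P : Par} {σ σ' : St} {I : ℕ} {v : Vd}

theorem A3_K (P : Par) : 51 ≤ P.K := by
  have h1 := P.hR
  have h2 := P.hK
  have h3 : P.R0 ≤ kap P.Q P.R0 := (Nat.le_add_right _ _).trans (Nat.le_add_right _ _)
  omega

theorem A3_al (f : ℕ) (v : Vd) : 0 ≤ al f v := by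
  unfold al
  split_ifs
  · exact le_rfl
  · have : (0 : ℤ) ≤ min (max 0 ((v.c : ℤ) - v.m)) (f : ℤ) :=
      le_min (le_max_left _ _) (Int.natCast_nonneg _)
    linarith

theorem A3_nd {v : Vd} {x y : ℤ} (h : x ≤ y) : nd v x ≤ nd v y := by
  unfold nd
  have : max 0 (x - ((v.n : ℤ) * v.d + v.p)) ≤ max 0 (y - ((v.n : ℤ) * v.d + v.p)) :=
    max_le_max le_rfl (by linarith)
  linarith

theorem A3_nd0 (v : Vd) (x : ℤ) : 0 ≤ nd v x := by
  unfold nd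
  have : (0 : ℤ) ≤ max 0 (x - ((v.n : ℤ) * v.d + v.p)) := le_max_left _ _
  linarith

theorem A3_pot (P : Par) (o a : ℕ) (v : Vd) : Psi P o 0 v = Psi P o a v + 8 * a ∧
    Vee P o 0 v = Vee P o a v + 8 * a ∧ Pee P o 0 v = Pee P o a v + 8 * a := by
  unfold Psi Vee Pee pQ
  push_cast
  refine ⟨?_, ?_, ?_⟩ <;> ring

theorem A3_trans {σ1 : St} {c J : ℕ} (h : Pays σ σ1 c) (h1 : Good P σ1 J) (h2 : c + J ≤ I) :
    Good P σ I := by
  obtain ⟨σ'', c', h3, h4, h5⟩ := h1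
  exact ⟨σ'', c + c', h.trans h3, by omega, h5⟩

theorem A3_c0 {o u μ ν cb r : ℕ} {β : Multiset ℕ} (sn : Sn P o u μ β v) (hI : I ≤ o + 1)
    (hy : v.c ≤ P.f + v.m + 3) (hX : v.X ≤ v.c)
    (ps : T4 P o ≤ Psi P o 0 v + 8 * I)
    (pv : v.md = true → T4 P o + nd v (v.c + P.K + 20) ≤ Vee P o 0 v + 8 * I)
    (pp : 1 ≤ μ ∨ v.E = 0 → TP P o v ≤ Pee P o 0 v + 8 * I) :
    Good P ⟨o, 0, r, u, μ, ν, cb, β⟩ I := by
  have hal := A3_al P.f v
  refine gJC (v := v) ⟨sn, rfl, hI, by omega, ?_, ?_, ?_, pp⟩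
  · have h1 : (v.c + 1) * (v.c - (P.f + v.m)) ≤ (v.c + 1) * 3 :=
      Nat.mul_le_mul_left _ (by omega)
    omega
  · show T4 P o ≤ Psi P o 0 v + 8 * I + al P.f v
    linarith
  · intro hmd
    have := pv hmd
    show T4 P o + nd v (v.c + P.K + 20) ≤ Vee P o 0 v + 8 * I + al P.f v
    linarith

theorem A3_cl {o a u μ ν cb : ℕ} {β : Multiset ℕ} (sn : Sn P o u μ β v) (hI : I ≤ o + 1)
    (ha : a ≤ I) (hy : v.c ≤ P.f + v.m + 3) (hX : v.X ≤ v.c)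
    (ps : T4 P o ≤ Psi P o a v + 8 * I)
    (pv : v.md = true → T4 P o + nd v (v.c + P.K + 20) ≤ Vee P o a v + 8 * I)
    (pp : 1 ≤ μ ∨ v.E = 0 → TP P o v ≤ Pee P o a v + 8 * I) :
    Good P ⟨o, a, 1, u, μ, ν, cb, β⟩ I := by
  obtain ⟨e1, e2, e3⟩ := A3_pot P o a v
  have hc : ((I - a : ℕ) : ℤ) = I - a := by
    rw [Nat.cast_sub ha]
  refine A3_trans (pays_close o a 1 u μ ν cb ν cb β)
    (A3_c0 (v := v) (I := I - a) sn (by omega) hy hX ?_ ?_ ?_) (by omega)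
  · rw [hc]; linarith
  · intro hmd
    have := pv hmd
    rw [hc]; linarith
  · intro hh
    have := pp hh
    rw [hc]; linarith

theorem A3_bar (h : LO P σ v) : 2 * v.c + 12 * P.K ≤ σ.o ∧ 2 * v.E + 12 * P.K ≤ σ.o ∧
    12 * P.K ≤ σ.o := by
  refine bar h.sn (by have := h.y; omega) ?_ (ra := σ.a)
  have h1 := h.ps
  have h2 : 0 ≤ lb σ v := by
    unfold lb
    split_ifs
    · exact le_rfl
    · positivity
  have h3 : (0 : ℤ) ≤ (v.c : ℤ) + P.K + 20 := by positivity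
  linarith

theorem ok_LO (h : LO P σ v) : Ok P.W σ := by
  obtain ⟨b1, b2, b3⟩ := A3_bar h
  have hK := A3_K P
  have h1 := h.a
  have h2 := h.cba
  have h3 := h.cb1
  have h4 := h.r
  have h5 := h.ν
  have h6 := h.sn.hE
  obtain ⟨τ, γ, -, h7, -⟩ := h.sn.hR
  exact
    { n0 := fun h8 => by omega
      o1 := by omega
      eR := by omega
      eA := fun _ => by omega
      f1 := fun j hj => by
        have := h7 j hj
        omega
      w1 := by rw [h4, one_mul]; omega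
      w2 := Or.inl (by omega)
      w3 := fun _ _ => ⟨h4, by omega⟩ }

theorem A3_lb (σ : St) (v : Vd) : 0 ≤ lb σ v := by
  unfold lb
  split_ifs
  · exact le_rfl
  · positivity

theorem A3_left {o a a' u cb : ℕ} {β : Multiset ℕ}
    (h : LO P ⟨o + 1, a, 1, u, 0, 1, cb, β⟩ v) (ha : a' ≤ a) (ha1 : a ≤ a' + 1)
    (hI1 : o + a' ≤ I + a + v.E) (hI2 : I ≤ o) : Good P ⟨o, a', 1, u, 0, 1, cb, β⟩ I := by
  obtain ⟨b1, b2, b3⟩ := A3_bar h
  have hK := A3_K P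
  have hK' : (51 : ℤ) ≤ P.K := by exact_mod_cast hK
  have h1 : a + v.c + P.K + 20 ≤ o + 1 := h.a
  have h2 : cb ≤ a := h.cba
  have h3 : 1 ≤ cb := h.cb1
  have h4 : cb ≤ v.c := h.cb
  have h5 := h.M
  have h6 := h.y
  have b1' : 2 * v.c + 12 * P.K ≤ o + 1 := b1
  have b2' : 2 * v.E + 12 * P.K ≤ o + 1 := b2
  have hlb := A3_lb ⟨o + 1, a, 1, u, 0, 1, cb, β⟩ v
  obtain ⟨p1, p2, -⟩ := st_L_pot (P := P) (v := v) (o := o) (ra := a) (ra' := a') (I := I) hI1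
  have q1 : T4 P (o + 1) + 8 * lb ⟨o + 1, a, 1, u, 0, 1, cb, β⟩ v ≤ Psi P (o + 1) a v := h.ps
  have q2 : v.md = true → T4 P (o + 1) + nd v (v.c + P.K + 20 +
    lb ⟨o + 1, a, 1, u, 0, 1, cb, β⟩ v) ≤ Vee P (o + 1) a v := h.pv
  have q3 := T4_succ P o
  by_cases hc : a' ≤ I
  · refine A3_cl (v := v) (st_L h.sn) (by omega) hc (by omega) (by have := h.X; omega) ?_ ?_ ?_
    · linarith
    · intro hmd
      have q4 := q2 hmd
      have q5 : nd v (v.c + P.K + 20) ≤ nd v (v.c + P.K + 20 +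
        lb ⟨o + 1, a, 1, u, 0, 1, cb, β⟩ v) := A3_nd (by linarith)
      linarith
    · intro hh
      omega
  · have hl : lb ⟨o + 1, a, 1, u, 0, 1, cb, β⟩ v = (v.c : ℤ) + 2 := by
      unfold lb
      rw [if_neg]
      show ¬ a + v.E + 1 ≤ o + 1
      omega
    rw [hl] at q1 q2
    refine gJL (v := v) (ρ := (v.c : ℤ) + 2)
      ⟨st_L h.sn, rfl, rfl, rfl, by show I ≤ o + 1; omega, h3, h4, Or.inl (by show cb ≤ a'; omega),
        h.w, h.X, h6, ?_, ?_, fun hE => by omega,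
        Or.inl ⟨le_rfl, by show a' + v.c + P.K + 20 ≤ o + I; omega⟩⟩
    · show T4 P o + 8 * ((v.c : ℤ) + 2) ≤ Psi P o a' v + 8 * I
      linarith
    · intro hmd
      have q4 := q2 hmd
      show T4 P o + nd v (v.c + P.K + 20 + ((v.c : ℤ) + 2)) ≤ Vee P o a' v + 8 * I
      linarith

theorem A3_h {o a a' u cb : ℕ} {β : Multiset ℕ}
    (h : LO P ⟨o + 1, a, 1, u, 0, 1, cb, β⟩ v) (ha : a' ≤ a) :
    Good P ⟨o, a', 1, u, 0, 1, cb, 0 ::ₘ β⟩ (o + 1) := by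
  have hK := A3_K P
  have hK' : (51 : ℤ) ≤ P.K := by exact_mod_cast hK
  have h1 : a + v.c + P.K + 20 ≤ o + 1 := h.a
  have h5 := h.M
  have h6 := h.y
  have hX := h.X
  have hlb := A3_lb ⟨o + 1, a, 1, u, 0, 1, cb, β⟩ v
  obtain ⟨p1, p2, -⟩ := st_h_pot (P := P) (ra := a) (ra' := a') (I := o + 1) h.sn (by omega)
  have q1 : T4 P (o + 1) + 8 * lb ⟨o + 1, a, 1, u, 0, 1, cb, β⟩ v ≤ Psi P (o + 1) a v := h.ps
  have q2 : v.md = true → T4 P (o + 1) + nd v (v.c + P.K + 20 +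
    lb ⟨o + 1, a, 1, u, 0, 1, cb, β⟩ v) ≤ Vee P (o + 1) a v := h.pv
  have q3 := T4_succ P o
  refine A3_cl (v := { v with n := v.n + 1 }) (st_h h.sn) le_rfl (by omega)
    (by show v.c ≤ P.f + v.m + 3; omega) (by show v.X ≤ v.c; omega) ?_ ?_ ?_
  · linarith
  · intro hmd
    have q4 := q2 hmd
    have q6 := p2 hmd
    have q5 : nd v (v.c + P.K + 20) ≤ nd v (v.c + P.K + 20 +
      lb ⟨o + 1, a, 1, u, 0, 1, cb, β⟩ v) := A3_nd (by linarith)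
    have q7 : nd { v with n := v.n + 1 } (v.c + P.K + 20) ≤ nd v (v.c + P.K + 20) := by
      unfold nd
      have : max 0 ((v.c : ℤ) + P.K + 20 - (((v.n + 1 : ℕ) : ℤ) * v.d + v.p)) ≤
          max 0 ((v.c : ℤ) + P.K + 20 - ((v.n : ℤ) * v.d + v.p)) := by
        refine max_le_max le_rfl ?_
        have h9 : (0 : ℤ) ≤ v.d := Int.natCast_nonneg _
        push_cast
        nlinarith
      exact mul_le_mul_of_nonneg_left this (by norm_num)
    show T4 P o + nd { v with n := v.n + 1 } (v.c + P.K + 20) ≤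
      Vee P o a' { v with n := v.n + 1 } + 8 * (o + 1 : ℕ)
    linarith
  · rintro (hh | hh)
    · omega
    · have : v.E = 0 := hh
      omega

theorem A3_psip {o a u cb : ℕ} {β : Multiset ℕ}
    (h : LO P ⟨o, a, 1, u, 0, 1, cb, β⟩ v) : TP P o v + 16 * (o : ℤ) ≤ Pee P o a v := by
  have h1 : a + v.c + P.K + 20 ≤ o := h.a
  have h2 : o ≤ P.Q := h.sn.ho
  have h3 := h.y
  have h4 := h.X
  have q1 : T4 P o + 8 * lb ⟨o, a, 1, u, 0, 1, cb, β⟩ v ≤ Psi P o a v := h.ps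
  have hlb := A3_lb ⟨o, a, 1, u, 0, 1, cb, β⟩ v
  refine psip h.sn (by omega) (by omega) (by omega) ?_
  have h3 : (0 : ℤ) ≤ (v.c : ℤ) + P.K + 20 := by positivity
  linarith

theorem A3_T {o a u cb j : ℕ} {γ : Multiset ℕ}
    (h : LO P ⟨o + 1, a, 1, u, 0, 1, cb, j ::ₘ γ⟩ v) :
    ∃ v' : Vd, Sn P o u 1 (0 ::ₘ γ) v' ∧ v'.c ≤ P.f + v'.m + 3 ∧ v'.X ≤ v'.c ∧
      ∀ ra' I : ℕ, o + ra' ≤ I + a + j →
        T4 P o ≤ Psi P o ra' v' + 8 * I ∧
        (v'.md = true → T4 P o + nd v' (v'.c + P.K + 20) ≤ Vee P o ra' v' + 8 * I) ∧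
        TP P o v' ≤ Pee P o ra' v' + 8 * I := by
  have hK := A3_K P
  have hK' : (51 : ℤ) ≤ P.K := by exact_mod_cast hK
  have h5 := h.M
  have h6 := h.y
  have hX := h.X
  have hlb := A3_lb ⟨o + 1, a, 1, u, 0, 1, cb, j ::ₘ γ⟩ v
  obtain ⟨v', s1, s2, s3, s4, s5, s6, s7, s8, s9, s10, s11⟩ :=
    st_T (P := P) (v := v) (o := o) (u := u) (μ := 0) (j := j) (γ := γ) h.sn (by omega) (by omega)
  refine ⟨v', s1, by omega, by omega, fun ra' I hI => ?_⟩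
  obtain ⟨p1, -, p2, p3⟩ := s11 a ra' I hI
  have q1 : T4 P (o + 1) + 8 * lb ⟨o + 1, a, 1, u, 0, 1, cb, j ::ₘ γ⟩ v ≤ Psi P (o + 1) a v := h.ps
  have q2 : v.md = true → T4 P (o + 1) + nd v (v.c + P.K + 20 +
    lb ⟨o + 1, a, 1, u, 0, 1, cb, j ::ₘ γ⟩ v) ≤ Vee P (o + 1) a v := h.pv
  have q3 := T4_succ P o
  have q8 := A3_psip h
  push_cast at q8
  refine ⟨?_, ?_, ?_⟩
  · linarith
  · intro hmd
    have q4 := q2 (s8 hmd)
    have q6 := p2 hmd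
    have q5 : nd v (v.c + P.K + 20) ≤ nd v (v.c + P.K + 20 +
      lb ⟨o + 1, a, 1, u, 0, 1, cb, j ::ₘ γ⟩ v) := A3_nd (by linarith)
    have q7 := s10 (v.c + P.K + 20) hmd
    rw [s4]
    have h9 : (0 : ℤ) ≤ (P.f : ℤ) := Int.natCast_nonneg _
    have h10 : (0 : ℤ) ≤ (v.m : ℤ) := Int.natCast_nonneg _
    linarith
  · have h9 : (0 : ℤ) ≤ (o : ℤ) := Int.natCast_nonneg _
    linarith

theorem A3_F {o a u cb : ℕ} {β : Multiset ℕ}
    (h : LO P ⟨o + 1, a, 1, u, 0, 1, cb, β⟩ v) :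
    ∃ v' : Vd, Sn P o u 1 β v' ∧ v'.c ≤ P.f + v'.m + 3 ∧ v'.X ≤ v'.c ∧
      ∀ ra' I : ℕ, o + 1 + ra' ≤ I + a →
        T4 P o ≤ Psi P o ra' v' + 8 * I ∧
        (v'.md = true → T4 P o + nd v' (v'.c + P.K + 20) ≤ Vee P o ra' v' + 8 * I) ∧
        TP P o v' ≤ Pee P o ra' v' + 8 * I := by
  have hK := A3_K P
  have hK' : (51 : ℤ) ≤ P.K := by exact_mod_cast hK
  have h5 := h.M
  have h6 := h.y
  have hX := h.X
  have hlb := A3_lb ⟨o + 1, a, 1, u, 0, 1, cb, β⟩ v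
  obtain ⟨v', s1, s2, s3, s4, s5, s6, s8, s9, s10, s11⟩ :=
    st_F (P := P) (v := v) (o := o) (u := u) (μ := 0) (β := β) h.sn (by omega) (by omega)
  refine ⟨v', s1, by omega, by omega, fun ra' I hI => ?_⟩
  obtain ⟨p1, -, p2, p3⟩ := s11 a ra' I hI
  have q1 : T4 P (o + 1) + 8 * lb ⟨o + 1, a, 1, u, 0, 1, cb, β⟩ v ≤ Psi P (o + 1) a v := h.ps
  have q2 : v.md = true → T4 P (o + 1) + nd v (v.c + P.K + 20 +
    lb ⟨o + 1, a, 1, u, 0, 1, cb, β⟩ v) ≤ Vee P (o + 1) a v := h.pv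
  have q3 := T4_succ P o
  have q8 := A3_psip h
  push_cast at q8
  refine ⟨?_, ?_, ?_⟩
  · linarith
  · intro hmd
    have q4 := q2 (s8 hmd)
    have q6 := p2 hmd
    have q5 : nd v (v.c + P.K + 20) ≤ nd v (v.c + P.K + 20 +
      lb ⟨o + 1, a, 1, u, 0, 1, cb, β⟩ v) := A3_nd (by linarith)
    have q7 := s10 (v.c + P.K + 20) hmd
    rw [s4]
    have h9 : (0 : ℤ) ≤ (P.f : ℤ) := Int.natCast_nonneg _
    have h10 : (0 : ℤ) ≤ (v.m : ℤ) := Int.natCast_nonneg _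
    linarith
  · have h9 : (0 : ℤ) ≤ (o : ℤ) := Int.natCast_nonneg _
    linarith

theorem A3_wl {o a u cb : ℕ} {β : Multiset ℕ}
    (h : LO P ⟨o + 1, a + 1, 1, u, 0, 1, cb, β⟩ v) :
    Good P ⟨o, a, 2, u + 1, 0, 1, 0, β⟩ (a + 1 - cb) := by
  obtain ⟨b1, b2, b3⟩ := A3_bar h
  have hK := A3_K P
  have hK' : (51 : ℤ) ≤ P.K := by exact_mod_cast hK
  have h1 : a + 1 + v.c + P.K + 20 ≤ o + 1 := h.a
  have h2 : cb ≤ a + 1 := h.cba
  have h3 : 1 ≤ cb := h.cb1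
  have h4 : cb ≤ v.c := h.cb
  have h5 := h.M
  have h6 := h.y
  have hX := h.X
  have hw := h.w
  have hlb := A3_lb ⟨o + 1, a + 1, 1, u, 0, 1, cb, β⟩ v
  obtain ⟨p1, p2, p3⟩ := st_wl_pot (P := P) (a := a) (cb := cb) h.sn (by omega) hw h6
    (by omega) h4 h2
  have q1 : T4 P (o + 1) + 8 * lb ⟨o + 1, a + 1, 1, u, 0, 1, cb, β⟩ v ≤ Psi P (o + 1) (a + 1) v :=
    h.ps
  have q2 : v.md = true → T4 P (o + 1) + nd v (v.c + P.K + 20 +
    lb ⟨o + 1, a + 1, 1, u, 0, 1, cb, β⟩ v) ≤ Vee P (o + 1) (a + 1) v := h.pv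
  have q3 := T4_succ P o
  have q8 := A3_psip h
  push_cast at q8
  have hR := P.hR
  have hk := P.hK
  refine gJS (v := { v with E := v.E - 1, w := v.w + 1 }) (k := P.R0 - 2 + P.Q / P.R0 + 1)
    ⟨st_ws h.sn (by omega) (by omega), rfl, le_rfl, by show a + 1 - cb ≤ o + 1; omega,
      ⟨by show 1 ≤ 2; omega, ?_, ?_⟩, by show v.w + 1 < 2; omega,
      Or.inl ⟨rfl, by show 2 * a + 2 ≤ o + (a + 1 - cb) + 1; omega, hX, h6⟩, ?_, ?_, ?_⟩
  · show 2 + (P.R0 - 2 + P.Q / P.R0 + 1) ≤ P.R0 + P.Q / P.R0 + 1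
    have : 2 + (P.R0 - 2) = P.R0 := by omega
    have e : 2 + (P.R0 - 2 + P.Q / P.R0 + 1) = (2 + (P.R0 - 2)) + P.Q / P.R0 + 1 := by ring
    rw [e, this]
  · intro a' _ _
    show kc P.Q P.R0 2 a' ≤ P.R0 - 2 + P.Q / P.R0 + 1
    unfold kc
    rw [if_pos (by omega)]
  · show T4 P o + 8 * (((2 : ℕ) : ℤ) - 1) ≤ Psi P o (2 * a) { v with E := v.E - 1, w := v.w + 1 } +
      8 * (a + 1 - cb : ℕ) + al P.f { v with E := v.E - 1, w := v.w + 1 }
    push_cast at *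
    linarith
  · intro hmd
    have q4 := q2 hmd
    have q5 : nd v (v.c + P.K + 20) ≤ nd v (v.c + P.K + 20 +
      lb ⟨o + 1, a + 1, 1, u, 0, 1, cb, β⟩ v) := A3_nd (by linarith)
    show T4 P o + nd v (v.c + P.K + 20) + 8 * (((2 : ℕ) : ℤ) - 1) ≤
      Vee P o (2 * a) { v with E := v.E - 1, w := v.w + 1 } +
      8 * (a + 1 - cb : ℕ) + al P.f { v with E := v.E - 1, w := v.w + 1 }
    push_cast at *
    linarith
  · intro _
    show TP P o { v with E := v.E - 1, w := v.w + 1 } + 8 * (((2 : ℕ) : ℤ) - 1) ≤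
      Pee P o (2 * a) { v with E := v.E - 1, w := v.w + 1 } + 8 * (a + 1 - cb : ℕ)
    push_cast at *
    linarith

theorem att_LO (h : LO P σ v) (ha : Att P.W σ σ' I) : Good P σ' I := by
  obtain ⟨b1, b2, b3⟩ := A3_bar h
  have hK := A3_K P
  have hK' : (51 : ℤ) ≤ P.K := by exact_mod_cast hK
  have hr := h.r
  have hν := h.ν
  have hμ := h.μ
  have hM := h.M
  have hcb1 := h.cb1
  have hcba := h.cba
  have haa := h.a
  have hE := h.sn.hE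
  have hy := h.y
  have hX := h.X
  obtain ⟨τ, γ', -, hjc, -⟩ := h.sn.hR
  cases ha with
  | lR o a r u μ ν cb β hao =>
    obtain rfl : r = 1 := hr
    obtain rfl : ν = 1 := hν
    obtain rfl : μ = 0 := hμ
    have hE' : P.W ≤ u + v.E := hE
    have b2' : 2 * v.E + 12 * P.K ≤ o + 1 := b2
    exact A3_left h le_rfl (by omega) (by omega) (by omega)
  | lA o a r u μ ν cb β =>
    obtain rfl : r = 1 := hr
    obtain rfl : ν = 1 := hν
    obtain rfl : μ = 0 := hμ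
    have hE' : P.W ≤ u + v.E := hE
    have b2' : 2 * v.E + 12 * P.K ≤ o + 1 := b2
    exact A3_left h (by omega) le_rfl (by omega) (by omega)
  | hR o a r u μ ν cb β hao =>
    obtain rfl : r = 1 := hr
    obtain rfl : ν = 1 := hν
    obtain rfl : μ = 0 := hμ
    exact A3_h h le_rfl
  | hA o a r u μ ν cb β =>
    obtain rfl : r = 1 := hr
    obtain rfl : ν = 1 := hν
    obtain rfl : μ = 0 := hμ
    exact A3_h h (by omega)
  | b0 o r u μ ν cb j γ =>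
    have : cb ≤ 0 := hcba
    have : 1 ≤ cb := hcb1
    omega
  | bA o a r u μ ν cb j γ =>
    obtain rfl : r = 1 := hr
    obtain rfl : ν = 1 := hν
    obtain rfl : μ = 0 := hμ
    have haa' : a + 1 + v.c + P.K + 20 ≤ o + 1 := haa
    have hj : j ≤ v.c := hjc j (Multiset.mem_cons_self j γ)
    obtain ⟨v', s1, s2, s3, s4⟩ := A3_T h
    obtain ⟨p1, p2, p3⟩ := s4 a (o - j) (by omega)
    exact A3_cl (v := v') s1 (by omega) (by omega) s2 s3 p1 p2 (fun _ => p3)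
  | bC o a r u μ ν cb j γ hh =>
    obtain rfl : r = 1 := hr
    obtain rfl : ν = 1 := hν
    obtain rfl : μ = 0 := hμ
    have haa' : a + v.c + P.K + 20 ≤ o + 1 := haa
    have hj : j ≤ v.c := hjc j (Multiset.mem_cons_self j γ)
    obtain ⟨v', s1, s2, s3, s4⟩ := A3_T h
    obtain ⟨p1, p2, p3⟩ := s4 0 (o - j - 1 * a) (by omega)
    exact A3_c0 (v := v') s1 (by omega) s2 s3 p1 p2 (fun _ => p3)
  | bR o a r u μ ν cb j γ hh =>
    obtain rfl : r = 1 := hr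
    have haa' : a + v.c + P.K + 20 ≤ o + 1 := haa
    have hj : j ≤ v.c := hjc j (Multiset.mem_cons_self j γ)
    omega
  | f0 o r u μ ν cb β =>
    have : cb ≤ 0 := hcba
    have : 1 ≤ cb := hcb1
    omega
  | fA o a r u μ ν cb β =>
    obtain rfl : r = 1 := hr
    obtain rfl : ν = 1 := hν
    obtain rfl : μ = 0 := hμ
    have haa' : a + 1 + v.c + P.K + 20 ≤ o + 1 := haa
    obtain ⟨v', s1, s2, s3, s4⟩ := A3_F h
    obtain ⟨p1, p2, p3⟩ := s4 a (o + 1) (by omega)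
    exact A3_cl (v := v') s1 (by omega) (by omega) s2 s3 p1 p2 (fun _ => p3)
  | fC o a r u μ ν cb β hh =>
    obtain rfl : r = 1 := hr
    obtain rfl : ν = 1 := hν
    obtain rfl : μ = 0 := hμ
    have haa' : a + v.c + P.K + 20 ≤ o + 1 := haa
    obtain ⟨v', s1, s2, s3, s4⟩ := A3_F h
    obtain ⟨p1, p2, p3⟩ := s4 0 (o + 1 - 1 * a) (by omega)
    exact A3_c0 (v := v') s1 (by omega) s2 s3 p1 p2 (fun _ => p3)
  | ws o a r u μ ν β =>
    have : 1 ≤ 0 := hcb1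
    omega
  | wl o a u μ ν cb β hh =>
    obtain rfl : ν = 1 := hν
    obtain rfl : μ = 0 := hμ
    exact A3_wl h
  | r4 o a r u μ ν cb β hh =>
    obtain rfl : r = 1 := hr
    obtain rfl : ν = 1 := hν
    obtain rfl : μ = 0 := hμ
    have haa' : a + v.c + P.K + 20 ≤ o := haa
    obtain ⟨e1, e2, -⟩ := A3_pot P o a v
    have hlb := A3_lb ⟨o, a, 1, u, 0, 1, cb, β⟩ v
    have q1 : T4 P o + 8 * lb ⟨o, a, 1, u, 0, 1, cb, β⟩ v ≤ Psi P o a v := h.ps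
    have q2 : v.md = true → T4 P o + nd v (v.c + P.K + 20 +
      lb ⟨o, a, 1, u, 0, 1, cb, β⟩ v) ≤ Vee P o a v := h.pv
    have hI0 : (0 : ℤ) ≤ ((o + 1 - 1 * a : ℕ) : ℤ) := Int.natCast_nonneg _
    have ha0 : (0 : ℤ) ≤ (a : ℤ) := Int.natCast_nonneg _
    refine A3_c0 (v := v) h.sn (by omega) (by omega) (by omega) ?_ ?_ (fun hh => by omega)
    · linarith
    · intro hmd
      have q4 := q2 hmd
      have q5 : nd v (v.c + P.K + 20) ≤ nd v (v.c + P.K + 20 +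
        lb ⟨o, a, 1, u, 0, 1, cb, β⟩ v) := A3_nd (by linarith)
      linarith
  | r5f o a r u μ ν cb β =>
    have : μ + 1 = 0 := hμ
    omega
  | r5b o a r u μ ν cb j γ =>
    refine ⟨_, 0, Pays.refl _, le_rfl, Or.inl (Or.inr (Or.inr (Or.inl ⟨v, ?_⟩)))⟩
    obtain rfl : μ = 0 := hμ
    exact ⟨st_5b h.sn, hM, hr, hν, rfl, hcb1, h.cb, hcba, haa, h.w, hX, hy, h.ps, h.pv⟩
  | nil =>
    exact ⟨_, 0, Pays.refl _, le_rfl, Or.inl (Or.inr (Or.inr (Or.inl ⟨v, h⟩)))⟩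

end Pool.Agent.OCN.YC
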